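import Pool.Agent.P.MP_5ee9eb_gt.Fin

open Pool.Agent.P.MP_5ee9eb_gt

namespace Pool.Agent.Results.MP_5ee9eb_gt.ContractibleMetric

/-- Every closed topological 4-manifold is homeomorphic to a metric space that is linearly locally
contractible, has the lower Ahlfors bound on all balls, and has the upper Ahlfors bound and
bi-Lipschitz coordinates on all balls far from a closed set of Hausdorff dimension at most 3. -/
theorem result :
  ∀ (X : Type) [TopologicalSpace X] [T2Space X] [CompactSpace X]
    [ChartedSpace (EuclideanSpace ℝ (Fin 4)) X],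
    ∃ (Y : Type) (_ : MetricSpace Y) (_ : MeasurableSpace Y) (_ : BorelSpace Y),
      Nonempty (Homeomorph Y X) ∧
      ∃ (C : ℝ) (S : Set Y), 1 ≤ C ∧ IsClosed S ∧ dimH S ≤ 3 ∧
        (∀ (x : Y) (r : ℝ), 0 < r → r ≤ Metric.diam (Set.univ : Set Y) →
          ENNReal.ofReal (C⁻¹ * r ^ 4) ≤
            (MeasureTheory.Measure.hausdorffMeasure (4 : ℝ) : MeasureTheory.Measure Y)
              (Metric.closedBall x r)) ∧
        (∀ (x : Y) (r : ℝ), 0 < r → Disjoint (Metric.ball x (C * r)) S →
          (MeasureTheory.Measure.hausdorffMeasure (4 : ℝ) : MeasureTheory.Measure Y)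
              (Metric.closedBall x r) ≤ ENNReal.ofReal (C * r ^ 4) ∧
          ∃ ψ : Y → EuclideanSpace ℝ (Fin 4),
            ∀ y ∈ Metric.closedBall x r, ∀ y' ∈ Metric.closedBall x r,
              dist y y' ≤ C * dist (ψ y) (ψ y') ∧ dist (ψ y) (ψ y') ≤ C * dist y y') ∧
        ∀ (x : Y) (r : ℝ), 0 < r → r ≤ Metric.diam (Set.univ : Set Y) / C →
          ∃ H : C(unitInterval × Metric.ball x r, Y),
            (∀ p, H (0, p) = (p : Y)) ∧ (∃ y : Y, ∀ p, H (1, p) = y) ∧
            ∀ t p, H (t, p) ∈ Metric.ball x (C * r) := by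
  intro X _ _ _ _
  obtain ⟨d, S, C, r0, g⟩ := exists_good 3 X
  let m : MetricSpace X := MetricSpace.ofDistTopology d g.met.self g.met.symm g.met.tri
    g.met.isOpen_iff fun x y h => g.met.sep x y h.le
  borelize X
  exact ⟨X, m, inferInstance, inferInstance, ⟨Homeomorph.refl X⟩, conv (Y := X) g⟩

end Pool.Agent.Results.MP_5ee9eb_gt.ContractibleMetric
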